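import Mathlib
import Pool.Agent.H.MP_5f6599_gt.Main

set_option autoImplicit false

namespace Pool.Agent.Results.MP_5f6599_gt.Main

open Set Topology Filter

universe u v

theorem result (I : Type u) [Uncountable I] (X : I → Type v) [∀ i, TopologicalSpace (X i)]
    (hX : ∀ i, ¬ CompactSpace (X i)) (D : Set (∀ i, X i))
    (hD : ∀ J : Set I, J.Countable → J.Nonempty → ∀ x : ∀ i : J, X i, ∃ d ∈ D, ∀ i : J, d i = x i) :
    ¬ ParacompactSpace D := by
  classical
  intro h
  have hne : ∀ i, Nonempty (X i) := fun i => by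
    by_contra h1
    have := not_nonempty_iff.1 h1
    exact hX i inferInstance
  obtain ⟨q0⟩ : Nonempty (∀ i, X i) := inferInstance
  obtain ⟨i0⟩ : Nonempty I := inferInstance
  have hD : ∀ J : Set I, J.Countable → ∀ x : ∀ i, X i, ∃ d ∈ D, ∀ i ∈ J, d i = x i := by
    intro J hJ x
    obtain ⟨d, h1, h2⟩ := hD (insert i0 J) (hJ.insert i0) (insert_nonempty _ _) fun i => x i
    exact ⟨d, h1, fun i hi => h2 ⟨i, Or.inr hi⟩⟩
  by_cases hc : ∃ i, IsCountablyCompact (univ : Set (X i))
  · obtain ⟨i, hi⟩ := hc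
    refine hX i ⟨isCompact_of_finite_subcover fun {A} U h1 h2 => ?_⟩
    obtain ⟨F, q, -, T, hT⟩ := H.MP_5f6599_gt.key hD (fun a => {y | y.1 i ∈ U a})
      (fun a => (h1 a).preimage ((continuous_apply i).comp continuous_subtype_val))
      (eq_univ_of_forall fun y => by simpa using h2 (mem_univ (y.1 i))) {i} (by
        intro y
        obtain ⟨x, -, hx⟩ := hi.seq_clusterPt (fun n => y n i) (by simp)
        refine ⟨atTop ⊓ comap (fun n => y n i) (𝓝 x), ?_, inf_le_left, Function.update q0 i x, ?_⟩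
        · exact neBot_inf_comap_iff_map.2 (inf_comm (𝓝 x) _ ▸ hx.clusterPt.neBot)
        · rintro _ rfl
          rw [Function.update_self]
          exact tendsto_inf_right tendsto_comap)
      (fun _ _ => True) q0 trivial fun _ q _ _ _ => ⟨q, trivial, fun _ _ => rfl⟩
    refine ⟨T, fun x _ => ?_⟩
    obtain ⟨d, h3, h4⟩ := hD (insert i F) (F.countable_toSet.insert i) (Function.update q i x)
    obtain ⟨a, h5, h6⟩ := hT ⟨d, h3⟩ fun j hj h => by
      rw [← Function.update_of_ne h x q]
      exact h4 j (Or.inr hj)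
    refine mem_iUnion₂.2 ⟨a, h5, ?_⟩
    change d i ∈ U a at h6
    rwa [h4 i (Or.inl rfl), Function.update_self] at h6
  simp only [isCountablyCompact_iff_countable_open_cover] at hc
  push Not at hc
  choose U h1 h2 h3 using hc
  let W : ∀ i, ℕ → Set (X i) := fun i n => ⋃ k ∈ Finset.range n, U i k
  choose c hc using fun i n => not_subset.1 (h3 i (Finset.range n))
  have hW : ∀ i m n, n ≤ m → c i m ∉ W i n := fun i m n h h4 =>
    (hc i m).2 (biUnion_subset_biUnion_left (Finset.range_mono h) h4)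
  obtain ⟨F, q, h4, T, hT⟩ := H.MP_5f6599_gt.key hD
    (fun a : {a : ℕ × Finset I // a.1 < a.2.card} => {y | ∀ i ∈ a.1.2, y.1 i ∈ W i a.1.1})
    (fun a => by
      simp only [ofPred_forall]
      exact isOpen_biInter_finset fun i _ => (isOpen_biUnion fun k _ => h1 i k).preimage
        ((continuous_apply i).comp continuous_subtype_val)) (by
      refine eq_univ_of_forall fun y => ?_
      by_contra h4
      refine not_countable_univ (α := I) ((countable_iUnion fun n =>
        (show {i | y.1 i ∈ W i n}.Finite from ?_).countable).mono fun i _ => ?_)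
      · by_contra h5
        obtain ⟨S, h6, h7⟩ := Set.Infinite.exists_subset_card_eq h5 (n + 1)
        exact h4 (mem_iUnion.2 ⟨⟨(n, S), h7 ▸ n.lt_succ_self⟩, fun i hi => h6 hi⟩)
      · obtain ⟨k, hk⟩ := mem_iUnion.1 (h2 i (mem_univ (y.1 i)))
        exact mem_iUnion.2 ⟨k + 1, mem_iUnion₂.2 ⟨k, Finset.self_mem_range_succ k, hk⟩⟩)
    ∅ (fun _ => ⟨atTop, inferInstance, le_rfl, q0, by simp⟩)
    (fun F q => ∀ n, (F.filter fun i => q i ∈ W i n).card ≤ n) q0 (by simp) (by
      intro F q F' h4 h5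
      refine ⟨F.piecewise q fun i => c i F'.card, fun n => ?_,
        fun i hi => F.piecewise_eq_of_mem _ _ hi⟩
      rcases le_total F'.card n with h6 | h6
      · exact (Finset.card_filter_le _ _).trans h6
      · refine (Finset.card_le_card fun i hi => ?_).trans (h4 n)
        have h7 := (Finset.mem_filter.1 hi).2
        by_cases h8 : i ∈ F
        · rw [F.piecewise_eq_of_mem _ _ h8] at h7
          exact Finset.mem_filter.2 ⟨h8, h7⟩
        · rw [F.piecewise_eq_of_notMem _ _ h8] at h7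
          exact absurd h7 (hW i _ n h6))
  obtain ⟨d, h5, h6⟩ := hD (F ∪ ⋃ a ∈ T, a.1.2) (F.countable_toSet.union
    (T.countable_toSet.biUnion fun a _ => a.1.2.countable_toSet))
    (F.piecewise q fun i => c i (T.sup fun a => a.1.1))
  obtain ⟨a, h7, h8⟩ := hT ⟨d, h5⟩ fun i hi _ =>
    (h6 i (Or.inl hi)).trans (F.piecewise_eq_of_mem _ _ hi)
  refine a.2.not_ge ((Finset.card_le_card fun i hi => ?_).trans (h4 _))
  have h9 : d i ∈ _ := h8 i hi
  rw [h6 i (Or.inr (mem_iUnion₂.2 ⟨a, h7, hi⟩))] at h9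
  by_cases h10 : i ∈ F
  · rw [F.piecewise_eq_of_mem _ _ h10] at h9
    exact Finset.mem_filter.2 ⟨h10, h9⟩
  · rw [F.piecewise_eq_of_notMem _ _ h10] at h9
    exact absurd h9 (hW i _ _ (Finset.le_sup (f := fun a : {a : ℕ × Finset I // a.1 < a.2.card} =>
      a.1.1) h7))

end Pool.Agent.Results.MP_5f6599_gt.Main
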